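import Pool.Agent.CCM.Alt

/-!
# Critical weights for families of quadratic costs

`X` is a set of symmetric matrices of natural numbers with zero diagonal, and `cost x w` is
`∑ i j, w i * w j * x i j`. Orbits of the indices are recorded by `π : Fin k → Fin q`. If for some
weights and some threshold the alternating sum over the sets of orbits with cost below the threshold
is not zero, there are natural numbers `m i ≥ 2` such that lowering any single `m i` by one lowers the
minimum of the cost over `X`.
-/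

set_option autoImplicit false

open Finset Filter Topology

namespace Pool.Agent.CCM

variable {q k : ℕ}

/-- The cost of a matrix for the weights `w`. -/
def cost (x : Fin k → Fin k → ℕ) (w : Fin k → ℝ) : ℝ := ∑ i, ∑ j, w i * w j * (x i j : ℝ)

/-- The cost for natural weights. -/
def costN (x : Fin k → Fin k → ℕ) (m : Fin k → ℕ) : ℕ := ∑ i, ∑ j, m i * m j * x i j

theorem cost_cast (x : Fin k → Fin k → ℕ) (m : Fin k → ℕ) :
    cost x (fun i => (m i : ℝ)) = (costN x m : ℝ) := by
  simp [cost, costN]

theorem cost_mono (x : Fin k → Fin k → ℕ) {w w' : Fin k → ℝ} (h0 : ∀ i, 0 ≤ w i)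
    (h : ∀ i, w i ≤ w' i) : cost x w ≤ cost x w' := by
  unfold cost
  refine Finset.sum_le_sum fun i _ => Finset.sum_le_sum fun j _ => ?_
  refine mul_le_mul_of_nonneg_right ?_ (Nat.cast_nonneg _)
  exact mul_le_mul (h i) (h j) (h0 j) ((h0 i).trans (h i))

theorem costN_mono (x : Fin k → Fin k → ℕ) {m m' : Fin k → ℕ}
    (h : ∀ i, m i ≤ m' i) : costN x m ≤ costN x m' := by
  unfold costN
  refine Finset.sum_le_sum fun i _ => Finset.sum_le_sum fun j _ => ?_
  exact Nat.mul_le_mul_right _ (Nat.mul_le_mul (h i) (h j))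

theorem cost_smul (x : Fin k → Fin k → ℕ) (c : ℝ) (w : Fin k → ℝ) :
    cost x (fun i => c * w i) = c ^ 2 * cost x w := by
  unfold cost
  rw [Finset.mul_sum]
  refine Finset.sum_congr rfl fun i _ => ?_
  rw [Finset.mul_sum]
  refine Finset.sum_congr rfl fun j _ => ?_
  ring

theorem cost_cont (x : Fin k → Fin k → ℕ) : Continuous (cost x) := by
  unfold cost
  fun_prop

theorem le_cost (x : Fin k → Fin k → ℕ) {w : Fin k → ℝ} (h0 : ∀ i, 0 ≤ w i) (i j : Fin k) :
    w i * w j * (x i j : ℝ) ≤ cost x w := by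
  unfold cost
  have h1 : ∀ a b, 0 ≤ w a * w b * (x a b : ℝ) := fun a b =>
    mul_nonneg (mul_nonneg (h0 a) (h0 b)) (Nat.cast_nonneg _)
  calc w i * w j * (x i j : ℝ) ≤ ∑ b, w i * w b * (x i b : ℝ) :=
        Finset.single_le_sum (f := fun b => w i * w b * (x i b : ℝ)) (fun b _ => h1 i b) (mem_univ j)
    _ ≤ _ := Finset.single_le_sum (f := fun a => ∑ b, w a * w b * (x a b : ℝ))
        (fun a _ => Finset.sum_nonneg fun b _ => h1 a b) (mem_univ i)

/-- The condition on the orbit weights. -/
def LL (X : Set (Fin k → Fin k → ℕ)) (π : Fin k → Fin q) (u : Fin q → ℝ) : Prop :=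
  ∀ x ∈ X, 1 ≤ cost x (fun i => u (π i))

/-- The critical points. -/
def CritPt (X : Set (Fin k → Fin k → ℕ)) (π : Fin k → Fin q) (u : Fin q → ℝ) : Prop :=
  LL X π u ∧ ∀ p, ∃ x ∈ X, cost x (fun i => u (π i)) = 1 ∧ ∃ i j, π i = p ∧ x i j ≠ 0

theorem local_indep (X : Set (Fin k → Fin k → ℕ)) (hsym : ∀ x ∈ X, ∀ i j, x i j = x j i)
    (π : Fin k → Fin q) (hq : 0 < q) {u : Fin q → ℝ} (hu : ∀ p, 0 < u p)
    (h : ¬ CritPt X π u) : ∃ p : Fin q, ∃ r > 0, ∀ v ∈ Metric.ball u r, ∀ y : ℝ,
      Function.update v p y ∈ Metric.ball u r →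
        (LL X π v ↔ LL X π (Function.update v p y)) := by
  have hc : ∀ x : Fin k → Fin k → ℕ, Continuous fun v : Fin q → ℝ => cost x (fun i => v (π i)) := by
    intro x
    exact (cost_cont x).comp (by fun_prop)
  by_cases hL : LL X π u
  · -- some orbit is slack
    have hp : ∃ p, ∀ x ∈ X, cost x (fun i => u (π i)) = 1 → ∀ i j, π i = p → x i j = 0 := by
      by_contra hcon
      push Not at hcon
      exact h ⟨hL, hcon⟩
    obtain ⟨p, hp⟩ := hp
    set B : Fin k → Fin k → ℕ := fun i j => ⌈1 / ((u (π i) / 2) * (u (π j) / 2))⌉₊ with hB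
    have hfin : (Set.Iic B).Finite := Set.finite_Iic B
    have e1 : ∀ᶠ v in 𝓝 u, ∀ p, u p / 2 < v p := by
      rw [Filter.eventually_all]
      intro p
      have : Tendsto (fun v : Fin q → ℝ => v p) (𝓝 u) (𝓝 (u p)) := (continuous_apply p).tendsto u
      exact this.eventually (lt_mem_nhds (half_lt_self (hu p)))
    have e2 : ∀ᶠ v in 𝓝 u, ∀ x ∈ Set.Iic B, 1 < cost x (fun i => u (π i)) →
        1 < cost x (fun i => v (π i)) := by
      rw [Filter.eventually_all_finite hfin]
      intro x _
      by_cases hx : 1 < cost x (fun i => u (π i))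
      · have := ((hc x).tendsto u).eventually (lt_mem_nhds hx)
        exact this.mono fun v hv _ => hv
      · exact Filter.Eventually.of_forall fun v hv => absurd hv hx
    have hkey : ∀ v, (∀ p, u p / 2 < v p) → (∀ x ∈ Set.Iic B, 1 < cost x (fun i => u (π i)) →
        1 < cost x (fun i => v (π i))) →
        (LL X π v ↔ ∀ x ∈ X, cost x (fun i => u (π i)) = 1 → 1 ≤ cost x (fun i => v (π i))) := by
      intro v hv1 hv2
      constructor
      · intro hv x hx _
        exact hv x hx
      · intro hv x hx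
        by_cases hxB : x ≤ B
        · rcases (hL x hx).eq_or_lt with h1 | h1
          · exact hv x hx h1.symm
          · exact (hv2 x hxB h1).le
        · have hxB' : ∃ i j, B i j < x i j := by
            by_contra hcon
            push Not at hcon
            exact hxB fun i j => hcon i j
          obtain ⟨i, j, hij⟩ := hxB'
          have hvpos : ∀ i, 0 ≤ v (π i) := fun i => by
            have := hv1 (π i); have := hu (π i); linarith
          have h2 := le_cost x hvpos i j
          refine le_trans ?_ h2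
          have hui : 0 < u (π i) / 2 := half_pos (hu _)
          have huj : 0 < u (π j) / 2 := half_pos (hu _)
          have h3 : 1 / ((u (π i) / 2) * (u (π j) / 2)) ≤ (x i j : ℝ) :=
            (Nat.le_ceil _).trans (Nat.cast_le.2 hij.le)
          rw [div_le_iff₀ (mul_pos hui huj)] at h3
          refine h3.trans ?_
          rw [mul_comm]
          refine mul_le_mul_of_nonneg_right ?_ (Nat.cast_nonneg _)
          exact mul_le_mul (hv1 _).le (hv1 _).le huj.le (hvpos i)
    obtain ⟨r, hr, hball⟩ := Metric.eventually_nhds_iff_ball.1 (e1.and e2)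
    refine ⟨p, r, hr, ?_⟩
    intro v hv y hy
    rw [hkey v (hball v hv).1 (hball v hv).2, hkey _ (hball _ hy).1 (hball _ hy).2]
    have hsame : ∀ x ∈ X, cost x (fun i => u (π i)) = 1 →
        cost x (fun i => v (π i)) = cost x (fun i => Function.update v p y (π i)) := by
      intro x hx h1
      unfold cost
      refine Finset.sum_congr rfl fun i _ => Finset.sum_congr rfl fun j _ => ?_
      by_cases hi : π i = p
      · rw [hp x hx h1 i j hi]
        simp
      · by_cases hj : π j = p
        · rw [hsym x hx i j, hp x hx h1 j i hj]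
          simp
        · simp only [Function.update_of_ne hi, Function.update_of_ne hj]
    constructor
    · intro hh x hx h1
      rw [← hsame x hx h1]
      exact hh x hx h1
    · intro hh x hx h1
      rw [hsame x hx h1]
      exact hh x hx h1
  · -- the condition fails near `u`
    unfold LL at hL
    push Not at hL
    obtain ⟨x, hx, hlt⟩ := hL
    have e1 : ∀ᶠ v in 𝓝 u, cost x (fun i => v (π i)) < 1 :=
      ((hc x).tendsto u).eventually (gt_mem_nhds hlt)
    obtain ⟨r, hr, hball⟩ := Metric.eventually_nhds_iff_ball.1 e1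
    refine ⟨⟨0, hq⟩, r, hr, ?_⟩
    intro v hv y hy
    constructor
    · intro hh
      exact absurd (hh x hx) (not_le.2 (hball v hv))
    · intro hh
      exact absurd (hh x hx) (not_le.2 (hball _ hy))

theorem exists_critPt (X : Set (Fin k → Fin k → ℕ)) (hsym : ∀ x ∈ X, ∀ i j, x i j = x j i)
    (π : Fin k → Fin q) (hq : 0 < q) {a b : Fin q → ℝ} (ha : ∀ p, 0 < a p) (hab : a ≤ b)
    (h : alt (LL X π) a b ≠ 0) : ∃ u : Fin q → ℝ, (∀ p, 0 < u p) ∧ CritPt X π u := by
  by_contra hcon
  push Not at hcon
  apply h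
  apply alt_local _ hab
  intro u hu
  have hpos : ∀ p, 0 < u p := fun p => (ha p).trans_le (hu.1 p)
  exact local_indep X hsym π hq hpos (hcon u hpos)

/-- The sets of orbits whose cost for the weights `b` is small. -/
def SmallX (X : Set (Fin k → Fin k → ℕ)) (π : Fin k → Fin q) (b : Fin q → ℝ)
    (T : Finset (Fin q)) : Prop :=
  ∃ x ∈ X, cost x (fun i => if π i ∈ T then b (π i) else 0) < 1

theorem eval_eventually (X : Set (Fin k → Fin k → ℕ)) (π : Fin k → Fin q) (b : Fin q → ℝ)
    (hb : ∀ p, 0 < b p) (T : Finset (Fin q)) : ∀ᶠ ε : ℝ in 𝓝[>] 0,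
      (LL X π (corner (fun _ => ε) b T) ↔ ¬ SmallX X π b T) := by
  by_cases hG : SmallX X π b T
  · obtain ⟨x, hx, hlt⟩ := hG
    have hcont : Continuous fun ε : ℝ => cost x (fun i => corner (fun _ => ε) b T (π i)) := by
      apply (cost_cont x).comp
      apply continuous_pi
      intro i
      unfold corner
      by_cases h : π i ∈ T
      · simp only [h, if_true]
        exact continuous_const
      · simp only [h, if_false]
        exact continuous_id
    have h0 : cost x (fun i => corner (fun _ => (0 : ℝ)) b T (π i)) < 1 := hlt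
    have h1 := (hcont.tendsto 0).eventually (gt_mem_nhds h0)
    filter_upwards [nhdsWithin_le_nhds h1] with ε hε
    constructor
    · intro hLL
      exact absurd (hLL x hx) (not_le.2 hε)
    · intro hn
      exact absurd ⟨x, hx, hlt⟩ hn
  · filter_upwards [self_mem_nhdsWithin] with ε hε
    refine iff_of_true ?_ hG
    intro x hx
    have h1 : 1 ≤ cost x (fun i => if π i ∈ T then b (π i) else 0) := by
      by_contra hcon
      exact hG ⟨x, hx, not_le.1 hcon⟩
    refine h1.trans (cost_mono x ?_ ?_)
    · intro i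
      by_cases h : π i ∈ T
      · simpa [h] using (hb (π i)).le
      · simp [h]
    · intro i
      unfold corner
      by_cases h : π i ∈ T
      · simp [h]
      · simpa [h] using (Set.mem_Ioi.1 hε).le

open Classical in
theorem exists_critPt_of_sum (X : Set (Fin k → Fin k → ℕ)) (hsym : ∀ x ∈ X, ∀ i j, x i j = x j i)
    (π : Fin k → Fin q) (hq : 0 < q) (b : Fin q → ℝ) (hb : ∀ p, 0 < b p)
    (h : (∑ T : Finset (Fin q), if SmallX X π b T then (-1 : ℤ) ^ T.card else 0) ≠ 0) :
    ∃ u : Fin q → ℝ, (∀ p, 0 < u p) ∧ CritPt X π u := by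
  have e1 : ∀ᶠ ε : ℝ in 𝓝[>] 0, ∀ T : Finset (Fin q),
      (LL X π (corner (fun _ => ε) b T) ↔ ¬ SmallX X π b T) := by
    rw [Filter.eventually_all]
    exact fun T => eval_eventually X π b hb T
  have e2 : ∀ᶠ ε : ℝ in 𝓝[>] 0, ∀ p, ε < b p := by
    rw [Filter.eventually_all]
    intro p
    exact nhdsWithin_le_nhds (gt_mem_nhds (hb p))
  obtain ⟨ε, hε0, hε1, hε2⟩ := ((eventually_mem_nhdsWithin (a := (0 : ℝ)) (s := Set.Ioi 0)).and (e1.and e2)).exists
  apply exists_critPt X hsym π hq (a := fun _ => ε) (b := b)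
  · intro p
    exact Set.mem_Ioi.1 hε0
  · intro p
    exact (hε2 p).le
  · intro h0
    apply h
    have hall : ∑ T : Finset (Fin q), (-1 : ℤ) ^ T.card = 0 := by
      have : (univ : Finset (Fin q)).Nonempty := ⟨⟨0, hq⟩, mem_univ _⟩
      have h1 := Finset.sum_powerset_neg_one_pow_card_of_nonempty this
      rwa [Finset.powerset_univ] at h1
    have h2 : alt (LL X π) (fun _ => ε) b =
        ∑ T : Finset (Fin q), ((-1 : ℤ) ^ T.card -
          if SmallX X π b T then (-1 : ℤ) ^ T.card else 0) := by
      unfold alt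
      refine Finset.sum_congr rfl fun T _ => ?_
      by_cases hT : SmallX X π b T
      · have : ¬ LL X π (corner (fun _ => ε) b T) := fun hh => (hε1 T).1 hh hT
        rw [chi, if_neg this, if_pos hT]
        ring
      · have : LL X π (corner (fun _ => ε) b T) := (hε1 T).2 hT
        rw [chi, if_pos this, if_neg hT]
        ring
    rw [h2, Finset.sum_sub_distrib, hall] at h0
    linarith

/-- Integer weights from a critical real point. -/
theorem integer_of_real (X : Set (Fin k → Fin k → ℕ))
    (w : Fin k → ℝ) (hw : ∀ i, 0 < w i)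
    (hL : ∀ x ∈ X, 1 ≤ cost x w)
    (hcr : ∀ i, ∃ x ∈ X, cost x w = 1 ∧ ∃ j, x i j ≠ 0) :
    ∃ m : Fin k → ℕ, (∀ i, 2 ≤ m i) ∧ ∃ N : ℕ, (∀ x ∈ X, N ≤ costN x m) ∧
      ∀ i, ∃ x ∈ X, costN x (Function.update m i (m i - 1)) < N := by
  choose xx hxX hx1 hxj using hcr
  -- removing an index lowers the cost
  have hrem : ∀ i, cost (xx i) (Function.update w i 0) < 1 := by
    intro i
    obtain ⟨j, hj⟩ := hxj i
    rw [← hx1 i]
    unfold cost
    have hle : ∀ a b : Fin k, Function.update w i 0 a * Function.update w i 0 b * (xx i a b : ℝ) ≤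
        w a * w b * (xx i a b : ℝ) := by
      intro a b
      refine mul_le_mul_of_nonneg_right ?_ (Nat.cast_nonneg _)
      have hu : ∀ a, 0 ≤ Function.update w i 0 a ∧ Function.update w i 0 a ≤ w a := by
        intro a
        by_cases ha : a = i
        · subst ha
          simp [(hw a).le]
        · rw [Function.update_of_ne ha]
          exact ⟨(hw a).le, le_rfl⟩
      exact mul_le_mul (hu a).2 (hu b).2 (hu b).1 (hw a).le
    refine Finset.sum_lt_sum (fun a _ => Finset.sum_le_sum fun b _ => hle a b)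
      ⟨i, mem_univ i, Finset.sum_lt_sum (fun b _ => hle i b) ⟨j, mem_univ j, ?_⟩⟩
    rw [Function.update_self, zero_mul, zero_mul]
    have : (0 : ℝ) < (xx i i j : ℝ) := by
      exact_mod_cast Nat.pos_of_ne_zero hj
    exact mul_pos (mul_pos (hw i) (hw j)) this
  have e1 : ∀ᶠ n : ℕ in atTop, ∀ i,
      cost (xx i) (Function.update (fun j => w j + 1 / (n : ℝ)) i (1 / (n : ℝ))) < 1 := by
    rw [Filter.eventually_all]
    intro i
    have hcont : Continuous fun t : ℝ => cost (xx i) (Function.update (fun j => w j + t) i t) := by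
      apply (cost_cont (xx i)).comp
      apply Continuous.update
      · fun_prop
      · fun_prop
    have h0 : cost (xx i) (Function.update (fun j => w j + (0 : ℝ)) i 0) < 1 := by
      simpa using hrem i
    have h1 := (hcont.tendsto 0).eventually (gt_mem_nhds h0)
    exact tendsto_one_div_atTop_nhds_zero_nat.eventually h1
  obtain ⟨n, hn0, hn⟩ := ((eventually_gt_atTop 0).and e1).exists
  have hnpos : (0 : ℝ) < (n : ℝ) := Nat.cast_pos.2 hn0
  set m : Fin k → ℕ := fun i => ⌈(n : ℝ) * w i⌉₊ with hm
  have hmge : ∀ i, (n : ℝ) * w i ≤ (m i : ℝ) := fun i => Nat.le_ceil _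
  have hmle : ∀ i, (m i : ℝ) ≤ (n : ℝ) * (w i + 1 / (n : ℝ)) := by
    intro i
    have h1 := (Nat.ceil_lt_add_one (mul_nonneg hnpos.le (hw i).le)).le
    have h2 : (n : ℝ) * (w i + 1 / (n : ℝ)) = n * w i + 1 := by field_simp
    rw [h2]
    exact h1
  have hbig : ∀ x ∈ X, n ^ 2 ≤ costN x m := by
    intro x hx
    have h1 : (n : ℝ) ^ 2 * cost x w ≤ cost x (fun i => (m i : ℝ)) := by
      rw [← cost_smul]
      exact cost_mono x (fun i => mul_nonneg hnpos.le (hw i).le) hmge
    rw [cost_cast] at h1
    have h2 : (n : ℝ) ^ 2 ≤ (n : ℝ) ^ 2 * cost x w := by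
      have := mul_le_mul_of_nonneg_left (hL x hx) (sq_nonneg (n : ℝ))
      linarith
    exact_mod_cast h2.trans h1
  have hsmall : ∀ i, costN (xx i) (Function.update m i 1) < n ^ 2 := by
    intro i
    have h1 : cost (xx i) (fun j => ((Function.update m i 1 j : ℕ) : ℝ)) ≤
        cost (xx i) (fun j => (n : ℝ) *
          Function.update (fun j => w j + 1 / (n : ℝ)) i (1 / (n : ℝ)) j) := by
      apply cost_mono
      · intro j
        exact Nat.cast_nonneg _
      · intro j
        by_cases hj : j = i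
        · subst hj
          rw [Function.update_self, Function.update_self]
          rw [mul_one_div_cancel hnpos.ne']
          simp
        · rw [Function.update_of_ne hj, Function.update_of_ne hj]
          exact hmle j
    rw [cost_cast, cost_smul] at h1
    have h2 : (n : ℝ) ^ 2 * cost (xx i)
        (Function.update (fun j => w j + 1 / (n : ℝ)) i (1 / (n : ℝ))) < (n : ℝ) ^ 2 * 1 :=
      mul_lt_mul_of_pos_left (hn i) (by positivity)
    have h3 := lt_of_le_of_lt h1 h2
    rw [mul_one] at h3
    exact_mod_cast h3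
  -- a minimal choice
  obtain ⟨m', ⟨hm'1, hm'2⟩, hmin⟩ := WellFounded.has_min
    (measure fun m' : Fin k → ℕ => ∑ i, m' i).wf
    {m' | (∀ i, m' i ≤ m i) ∧ ∀ x ∈ X, n ^ 2 ≤ costN x m'} ⟨m, fun _ => le_rfl, hbig⟩
  have htwo : ∀ i, 2 ≤ m' i := by
    intro i
    by_contra hcon
    have hle : ∀ j, m' j ≤ Function.update m i 1 j := by
      intro j
      by_cases hj : j = i
      · subst hj
        rw [Function.update_self]
        omega
      · rw [Function.update_of_ne hj]
        exact hm'1 j
    have h1 := costN_mono (xx i) hle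
    have h2 := hm'2 (xx i) (hxX i)
    have h3 := hsmall i
    omega
  refine ⟨m', htwo, n ^ 2, hm'2, ?_⟩
  intro i
  by_contra hcon
  push Not at hcon
  apply hmin (Function.update m' i (m' i - 1))
  · refine ⟨?_, hcon⟩
    intro j
    by_cases hj : j = i
    · subst hj
      rw [Function.update_self]
      have := hm'1 j
      omega
    · rw [Function.update_of_ne hj]
      exact hm'1 j
  · change ∑ j, Function.update m' i (m' i - 1) j < ∑ j, m' j
    apply Finset.sum_lt_sum
    · intro j _
      by_cases hj : j = i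
      · subst hj
        rw [Function.update_self]
        omega
      · rw [Function.update_of_ne hj]
    · refine ⟨i, mem_univ i, ?_⟩
      rw [Function.update_self]
      have := htwo i
      omega

open Classical in
/-- The abstract criterion. -/
theorem abstract_criterion (X : Set (Fin k → Fin k → ℕ))
    (hsym : ∀ x ∈ X, ∀ i j, x i j = x j i)
    (π : Fin k → Fin q)
    (hπ : ∀ i j, π i = π j → ∃ σ : Equiv.Perm (Fin k), σ i = j ∧ (∀ l, π (σ l) = π l) ∧
      ∀ x ∈ X, (fun a b => x (σ a) (σ b)) ∈ X)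
    (μ : Fin q → ℕ) (hμ : ∀ p, 1 ≤ μ p) (c : ℕ) (hc : 0 < c)
    (h : (∑ T : Finset (Fin q), if (∃ x ∈ X, costN x (fun i => if π i ∈ T then μ (π i) else 0) < c)
      then (-1 : ℤ) ^ T.card else 0) ≠ 0) :
    ∃ m : Fin k → ℕ, (∀ i, 2 ≤ m i) ∧ ∃ N : ℕ, (∀ x ∈ X, N ≤ costN x m) ∧
      ∀ i, ∃ x ∈ X, costN x (Function.update m i (m i - 1)) < N := by
  rcases Nat.eq_zero_or_pos q with hq | hq
  · subst hq
    refine ⟨fun _ => 2, fun _ => le_rfl, 0, fun _ _ => Nat.zero_le _, fun i => (π i).elim0⟩
  · have hcpos : (0 : ℝ) < (c : ℝ) := Nat.cast_pos.2 hc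
    have hsq : (0 : ℝ) < Real.sqrt c := Real.sqrt_pos.2 hcpos
    have hb : ∀ p, 0 < 1 / Real.sqrt c * (μ p : ℝ) := fun p =>
      mul_pos (one_div_pos.2 hsq) (Nat.cast_pos.2 (hμ p))
    have hiff : ∀ T, SmallX X π (fun p => 1 / Real.sqrt c * (μ p : ℝ)) T ↔
        ∃ x ∈ X, costN x (fun i => if π i ∈ T then μ (π i) else 0) < c := by
      intro T
      unfold SmallX
      refine exists_congr fun x => and_congr_right fun _ => ?_
      have h1 : (fun i => if π i ∈ T then 1 / Real.sqrt c * (μ (π i) : ℝ) else 0) =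
          fun i => 1 / Real.sqrt c * (((if π i ∈ T then μ (π i) else 0 : ℕ)) : ℝ) := by
        funext i
        by_cases hi : π i ∈ T <;> simp [hi]
      rw [h1, cost_smul, cost_cast, div_pow, one_pow, Real.sq_sqrt hcpos.le, one_div_mul_eq_div,
        div_lt_one hcpos, Nat.cast_lt]
    obtain ⟨u, hu, hL, hcr⟩ := exists_critPt_of_sum X hsym π hq
      (fun p => 1 / Real.sqrt c * (μ p : ℝ)) hb (by simpa only [hiff] using h)
    refine integer_of_real X (fun i => u (π i)) (fun i => hu _) hL ?_
    intro i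
    obtain ⟨x, hx, hx1, i', j', hi', hne⟩ := hcr (π i)
    obtain ⟨σ, hσi, hσπ, hσX⟩ := hπ i i' hi'.symm
    refine ⟨fun a b => x (σ a) (σ b), hσX x hx, ?_, σ.symm j', ?_⟩
    · rw [← hx1]
      unfold cost
      have h1 : ∀ a b : Fin k, u (π a) * u (π b) * (x (σ a) (σ b) : ℝ) =
          u (π (σ a)) * u (π (σ b)) * (x (σ a) (σ b) : ℝ) := by
        intro a b
        rw [hσπ, hσπ]
      simp only [h1]
      rw [Equiv.sum_comp σ (fun a => ∑ b, u (π a) * u (π (σ b)) * (x a (σ b) : ℝ))]
      refine Finset.sum_congr rfl fun a _ => ?_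
      exact Equiv.sum_comp σ (fun b => u (π a) * u (π b) * (x a b : ℝ))
    · simp only [Equiv.apply_symm_apply, hσi]
      exact hne

end Pool.Agent.CCM
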