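import Mathlib

/-!
# Alternating sums over the corners of boxes

For a condition `L` on the points of `ℝ^q`, `alt L a b` is the alternating sum of the indicator of `L`
over the corners of the box `[a, b]`. It is additive when a side is cut, and it vanishes when `L` does
not depend on some coordinate. Hence a nonzero alternating sum gives a point of the box near which
`L` depends on every coordinate.
-/

set_option autoImplicit false

open Finset

namespace Pool.Agent.CCM

variable {q : ℕ}

/-- The corner of the box `[a, b]` with upper coordinates in `T`. -/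
def corner (a b : Fin q → ℝ) (T : Finset (Fin q)) : Fin q → ℝ := fun i => if i ∈ T then b i else a i

open Classical in
/-- The indicator of a condition. -/
noncomputable def chi (L : (Fin q → ℝ) → Prop) (u : Fin q → ℝ) : ℤ := if L u then 1 else 0

/-- The alternating sum over the corners. -/
noncomputable def alt (L : (Fin q → ℝ) → Prop) (a b : Fin q → ℝ) : ℤ :=
  ∑ T : Finset (Fin q), (-1) ^ T.card * chi L (corner a b T)

theorem corner_eq_update (a b : Fin q → ℝ) (p : Fin q) {T : Finset (Fin q)} (hT : p ∉ T) :
    corner a b T = Function.update (corner a b T) p (a p) := by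
  funext i
  by_cases h : i = p
  · subst h
    simp [corner, hT]
  · simp [Function.update_of_ne h]

theorem corner_insert (a b : Fin q → ℝ) (p : Fin q) (T : Finset (Fin q)) :
    corner a b (insert p T) = Function.update (corner a b T) p (b p) := by
  funext i
  by_cases h : i = p
  · subst h
    simp [corner]
  · simp [corner, h]

/-- The alternating sum as a sum of differences in the direction `p`. -/
theorem alt_eq (L : (Fin q → ℝ) → Prop) (a b : Fin q → ℝ) (p : Fin q) :
    alt L a b = ∑ T ∈ (univ.erase p).powerset, (-1) ^ T.card *
      (chi L (Function.update (corner a b T) p (a p)) -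
        chi L (Function.update (corner a b T) p (b p))) := by
  unfold alt
  have h1 : (univ : Finset (Finset (Fin q))) = (insert p (univ.erase p)).powerset := by
    rw [Finset.insert_erase (mem_univ p), Finset.powerset_univ]
  rw [h1, Finset.sum_powerset_insert (Finset.notMem_erase p univ), ← Finset.sum_add_distrib]
  apply Finset.sum_congr rfl
  intro T hT
  have hp : p ∉ T := by
    intro h
    have := Finset.mem_powerset.1 hT h
    exact Finset.notMem_erase p univ this
  rw [Finset.card_insert_of_notMem hp, corner_insert, ← corner_eq_update a b p hp, pow_succ]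
  ring

theorem corner_update_left (a b : Fin q → ℝ) (p : Fin q) (c y : ℝ) (T : Finset (Fin q)) :
    Function.update (corner (Function.update a p c) b T) p y = Function.update (corner a b T) p y := by
  funext i
  by_cases h : i = p
  · subst h; simp
  · simp [Function.update_of_ne h, corner]

theorem corner_update_right (a b : Fin q → ℝ) (p : Fin q) (c y : ℝ) (T : Finset (Fin q)) :
    Function.update (corner a (Function.update b p c) T) p y = Function.update (corner a b T) p y := by
  funext i
  by_cases h : i = p
  · subst h; simp
  · simp [Function.update_of_ne h, corner]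

/-- Cutting a side. -/
theorem alt_cut (L : (Fin q → ℝ) → Prop) (a b : Fin q → ℝ) (p : Fin q) (c : ℝ) :
    alt L a b = alt L a (Function.update b p c) + alt L (Function.update a p c) b := by
  rw [alt_eq L a b p, alt_eq L a (Function.update b p c) p, alt_eq L (Function.update a p c) b p,
    ← Finset.sum_add_distrib]
  apply Finset.sum_congr rfl
  intro T _
  simp only [corner_update_left, corner_update_right, Function.update_self]
  ring

/-- The alternating sum vanishes if the condition does not depend on the coordinate `p`. -/
theorem alt_zero (L : (Fin q → ℝ) → Prop) (a b : Fin q → ℝ) (p : Fin q)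
    (h : ∀ T : Finset (Fin q), L (Function.update (corner a b T) p (a p)) ↔
      L (Function.update (corner a b T) p (b p))) : alt L a b = 0 := by
  rw [alt_eq L a b p]
  apply Finset.sum_eq_zero
  intro T _
  have : chi L (Function.update (corner a b T) p (a p)) =
      chi L (Function.update (corner a b T) p (b p)) := by
    by_cases hT : L (Function.update (corner a b T) p (a p))
    · rw [chi, chi, if_pos hT, if_pos ((h T).1 hT)]
    · rw [chi, chi, if_neg hT, if_neg (fun hh => hT ((h T).2 hh))]
  rw [this]
  ring

/-- Halving the sides in `s`. -/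
theorem halve (L : (Fin q → ℝ) → Prop) {a b : Fin q → ℝ} (hab : a ≤ b) (h : alt L a b ≠ 0)
    (s : Finset (Fin q)) : ∃ a' b' : Fin q → ℝ, a ≤ a' ∧ a' ≤ b' ∧ b' ≤ b ∧
      (∀ i ∈ s, b' i - a' i = (b i - a i) / 2) ∧ (∀ i ∉ s, b' i = b i ∧ a' i = a i) ∧
      alt L a' b' ≠ 0 := by
  induction s using Finset.induction_on with
  | empty => exact ⟨a, b, le_rfl, hab, le_rfl, by simp, by simp, h⟩
  | insert p s hp ih =>
    obtain ⟨a', b', h1, h2, h3, h4, h5, h6⟩ := ih
    obtain ⟨e1, e2⟩ := h5 p hp
    have habp := hab p
    set c := (a p + b p) / 2 with hc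
    rw [alt_cut L a' b' p c] at h6
    have hne : alt L a' (Function.update b' p c) ≠ 0 ∨ alt L (Function.update a' p c) b' ≠ 0 := by
      by_contra hcon
      push Not at hcon
      rw [hcon.1, hcon.2] at h6
      exact h6 rfl
    rcases hne with hne | hne
    · refine ⟨a', Function.update b' p c, h1, ?_, ?_, ?_, ?_, hne⟩
      · intro i
        by_cases hi : i = p
        · subst hi
          rw [Function.update_self, e2]
          linarith
        · rw [Function.update_of_ne hi]; exact h2 i
      · intro i
        by_cases hi : i = p
        · subst hi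
          rw [Function.update_self]
          linarith
        · rw [Function.update_of_ne hi]; exact h3 i
      · intro i hi
        by_cases hip : i = p
        · subst hip
          rw [Function.update_self, e2, hc]
          ring
        · rw [Function.update_of_ne hip]
          exact h4 i ((Finset.mem_insert.1 hi).resolve_left hip)
      · intro i hi
        rw [Finset.mem_insert] at hi
        push Not at hi
        rw [Function.update_of_ne hi.1]
        exact h5 i hi.2
    · refine ⟨Function.update a' p c, b', ?_, ?_, h3, ?_, ?_, hne⟩
      · intro i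
        by_cases hi : i = p
        · subst hi
          rw [Function.update_self]
          linarith
        · rw [Function.update_of_ne hi]; exact h1 i
      · intro i
        by_cases hi : i = p
        · subst hi
          rw [Function.update_self, e1]
          linarith
        · rw [Function.update_of_ne hi]; exact h2 i
      · intro i hi
        by_cases hip : i = p
        · subst hip
          rw [Function.update_self, e1, hc]
          ring
        · rw [Function.update_of_ne hip]
          exact h4 i ((Finset.mem_insert.1 hi).resolve_left hip)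
      · intro i hi
        rw [Finset.mem_insert] at hi
        push Not at hi
        rw [Function.update_of_ne hi.1]
        exact h5 i hi.2

/-- Small boxes with nonzero alternating sum. -/
theorem bisect (L : (Fin q → ℝ) → Prop) {a b : Fin q → ℝ} (hab : a ≤ b) (h : alt L a b ≠ 0)
    (n : ℕ) : ∃ a' b' : Fin q → ℝ, a ≤ a' ∧ a' ≤ b' ∧ b' ≤ b ∧
      (∀ i, b' i - a' i = (b i - a i) / 2 ^ n) ∧ alt L a' b' ≠ 0 := by
  induction n with
  | zero => exact ⟨a, b, le_rfl, hab, le_rfl, by simp, h⟩
  | succ n ih =>
    obtain ⟨a', b', h1, h2, h3, h4, h5⟩ := ih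
    obtain ⟨a'', b'', g1, g2, g3, g4, _, g6⟩ := halve L h2 h5 univ
    refine ⟨a'', b'', le_trans h1 g1, g2, le_trans g3 h3, ?_, g6⟩
    intro i
    rw [g4 i (mem_univ i), h4 i, pow_succ]
    field_simp

/-- If `L` is locally independent of some coordinate at every point of the box, the alternating sum
vanishes. -/
theorem alt_local (L : (Fin q → ℝ) → Prop) {a b : Fin q → ℝ} (hab : a ≤ b)
    (h : ∀ u ∈ Set.Icc a b, ∃ p : Fin q, ∃ r > 0, ∀ v ∈ Metric.ball u r, ∀ y : ℝ,
      Function.update v p y ∈ Metric.ball u r → (L v ↔ L (Function.update v p y))) :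
    alt L a b = 0 := by
  by_contra hne
  have h' : ∀ u : Set.Icc a b, ∃ p : Fin q, ∃ r > 0, ∀ v ∈ Metric.ball (u : Fin q → ℝ) r, ∀ y : ℝ,
      Function.update v p y ∈ Metric.ball (u : Fin q → ℝ) r → (L v ↔ L (Function.update v p y)) :=
    fun u => h u u.2
  choose p r hr hL using h'
  have hcover : Set.Icc a b ⊆ ⋃ u : Set.Icc a b, Metric.ball (u : Fin q → ℝ) (r u) := by
    intro u hu
    exact Set.mem_iUnion.2 ⟨⟨u, hu⟩, Metric.mem_ball_self (hr ⟨u, hu⟩)⟩
  obtain ⟨δ, hδ, hleb⟩ := lebesgue_number_lemma_of_metric (isCompact_Icc : IsCompact (Set.Icc a b))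
    (fun u : Set.Icc a b => Metric.isOpen_ball) hcover
  -- the number of halvings
  obtain ⟨B, hB⟩ : ∃ B : ℝ, 0 < B ∧ ∀ i, b i - a i ≤ B := by
    refine ⟨1 + ∑ i, (b i - a i), ?_, ?_⟩
    · have : 0 ≤ ∑ i, (b i - a i) := Finset.sum_nonneg fun i _ => sub_nonneg.2 (hab i)
      linarith
    · intro i
      have := Finset.single_le_sum (f := fun i => b i - a i) (fun i _ => sub_nonneg.2 (hab i))
        (mem_univ i)
      linarith
  obtain ⟨n, hn⟩ := exists_pow_lt_of_lt_one (div_pos hδ hB.1) (by norm_num : (1 / 2 : ℝ) < 1)
  obtain ⟨a', b', h1, h2, h3, h4, h5⟩ := bisect L hab hne n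
  have ha' : a' ∈ Set.Icc a b := ⟨h1, le_trans h2 h3⟩
  obtain ⟨u, hball⟩ := hleb a' ha'
  have hsmall : ∀ i, b' i - a' i < δ := by
    intro i
    rw [h4 i]
    calc (b i - a i) / 2 ^ n ≤ B / 2 ^ n := by
          apply div_le_div_of_nonneg_right (hB.2 i) (by positivity)
      _ = B * (1 / 2) ^ n := by rw [one_div, inv_pow]; rfl
      _ < B * (δ / B) := mul_lt_mul_of_pos_left hn hB.1
      _ = δ := by field_simp [hB.1.ne']
  have hc : ∀ T : Finset (Fin q), ∀ y : ℝ, (y = a' (p u) ∨ y = b' (p u)) →
      Function.update (corner a' b' T) (p u) y ∈ Metric.ball (u : Fin q → ℝ) (r u) := by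
    intro T y hy
    apply hball
    rw [Metric.mem_ball, dist_pi_lt_iff hδ]
    intro i
    rw [Real.dist_eq]
    have hh : ∀ z : ℝ, (z = a' i ∨ z = b' i) → |z - a' i| < δ := by
      intro z hz
      rcases hz with rfl | rfl
      · simpa using hδ
      · rw [abs_of_nonneg (sub_nonneg.2 (h2 i))]; exact hsmall i
    apply hh
    by_cases hi : i = p u
    · subst hi
      rw [Function.update_self]
      exact hy
    · rw [Function.update_of_ne hi]
      unfold corner
      split_ifs
      · exact Or.inr rfl
      · exact Or.inl rfl
  apply h5
  apply alt_zero L a' b' (p u)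
  intro T
  have g1 := hc T (a' (p u)) (Or.inl rfl)
  have g2 := hc T (b' (p u)) (Or.inr rfl)
  have := hL u _ g1 (b' (p u)) (by rw [Function.update_idem]; exact g2)
  rw [Function.update_idem] at this
  exact this

end Pool.Agent.CCM
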